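import Mathlib

set_option autoImplicit false

universe u

open scoped commutatorElement

namespace Pool.Agent.Results.MP_2bd3fb_al.NotIntegrable

abbrev V : Type := ℤ →₀ ZMod 9

@[ext] structure W where
  a : V
  d : V ≃ₗ[ℤ] V

noncomputable instance : Mul W := ⟨fun x y => ⟨x.a + x.d y.a, x.d * y.d⟩⟩
noncomputable instance : One W := ⟨⟨0, 1⟩⟩
noncomputable instance : Inv W := ⟨fun x => ⟨-x.d⁻¹ x.a, x.d⁻¹⟩⟩
@[simp] theorem mul_a (x y : W) : (x * y).a = x.a + x.d y.a := rfl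
@[simp] theorem mul_d (x y : W) : (x * y).d = x.d * y.d := rfl
@[simp] theorem one_a : (1 : W).a = 0 := rfl
@[simp] theorem one_d : (1 : W).d = 1 := rfl
@[simp] theorem inv_a (x : W) : x⁻¹.a = -x.d⁻¹ x.a := rfl
@[simp] theorem inv_d (x : W) : x⁻¹.d = x.d⁻¹ := rfl

noncomputable instance : Group W :=
  Group.ofLeftAxioms (fun x y z => W.ext (by simp [add_assoc]) (by simp [mul_assoc]))
    (fun x => W.ext (by simp) (by simp)) (fun x => W.ext (by simp) (by simp))

def Sub (B : AddSubgroup V) (D : Subgroup (V ≃ₗ[ℤ] V)) (h : ∀ d ∈ D, ∀ b ∈ B, d b ∈ B) :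
    Subgroup W where
  carrier := {w | w.a ∈ B ∧ w.d ∈ D}
  one_mem' := ⟨B.zero_mem, D.one_mem⟩
  mul_mem' := fun hx hy => ⟨B.add_mem hx.1 (h _ hx.2 _ hy.1), D.mul_mem hx.2 hy.2⟩
  inv_mem' := fun hx => ⟨B.neg_mem (h _ (D.inv_mem hx.2) _ hx.1), D.inv_mem hx.2⟩

noncomputable abbrev ν : V ≃ₗ[ℤ] V := LinearEquiv.neg ℤ

theorem ν_mul : ν * ν = 1 := by
  refine LinearEquiv.ext fun v => by simp

theorem ν_comm (d : V ≃ₗ[ℤ] V) : d * ν = ν * d := by
  refine LinearEquiv.ext fun v => by simp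

def Z : Subgroup (V ≃ₗ[ℤ] V) where
  carrier := {d | d = 1 ∨ d = ν}
  one_mem' := Or.inl rfl
  mul_mem' := by rintro _ _ (rfl | rfl) (rfl | rfl) <;> simp [ν_mul]
  inv_mem' := by
    rintro _ (rfl | rfl)
    · simp
    · exact Or.inr (inv_eq_of_mul_eq_one_right ν_mul)

instance : Z.Normal := ⟨by rintro _ (rfl | rfl) g <;> simp [Z, ν_comm]⟩

theorem hZ (B : AddSubgroup V) : ∀ d ∈ Z, ∀ b ∈ B, d b ∈ B := by
  rintro _ (rfl | rfl) b hb
  · exact hb
  · exact B.neg_mem hb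

def A (m : ℤ) : AddSubgroup V where
  carrier := {f | 3 * f m = 0}
  zero_mem' := by simp
  add_mem' := fun {f g} hf hg => by
    simp only [Set.mem_ofPred_eq, Finsupp.add_apply, mul_add] at *
    rw [hf, hg, add_zero]
  neg_mem' := fun {f} hf => by simpa using hf

abbrev G : Subgroup W := Sub (A 0) Z (hZ _)

theorem nine (v : V) : (9 : ℕ) • v = 0 := by
  ext i
  have : (9 : ZMod 9) = 0 := rfl
  simp [this]

theorem integrable (B : AddSubgroup V) (x y : V ≃ₗ[ℤ] V) (hx : ∀ b, b ∈ B ↔ x b ∈ B)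
    (hy : ∀ b, b ∈ B ↔ y b ∈ B) (hxy : ⁅x, y⁆ = ν) :
    ∃ H : Subgroup W, ⁅H, H⁆ = Sub B Z (hZ _) := by
  let D := Subgroup.closure {x, y}
  have hD : ∀ d ∈ D, ∀ b, b ∈ B ↔ d b ∈ B := by
    intro d hd
    induction hd using Subgroup.closure_induction with
    | mem d hd =>
      rcases hd with rfl | rfl
      exacts [hx, hy]
    | one => simp
    | mul d d' _ _ h h' => exact fun b => (h' b).trans (h _)
    | inv d _ h => exact fun b => by rw [h (d⁻¹ b)]; simp
  have hx' : x ∈ D := Subgroup.subset_closure (by simp)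
  have hy' : y ∈ D := Subgroup.subset_closure (by simp)
  refine ⟨Sub B D fun d hd b hb => (hD d hd b).1 hb, le_antisymm ?_ ?_⟩
  · refine Subgroup.commutator_le.2 fun g hg h hh => ⟨(mul_mem (mul_mem (mul_mem hg hh)
      (inv_mem hg)) (inv_mem hh)).1, ?_⟩
    change ⁅g.d, h.d⁆ ∈ Z
    rw [← QuotientGroup.eq_one_iff]
    change QuotientGroup.mk' Z _ = 1
    rw [map_commutatorElement, commutatorElement_eq_one_iff_commute]
    have h0 : Commute (QuotientGroup.mk' Z x) (QuotientGroup.mk' Z y) := by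
      rw [← commutatorElement_eq_one_iff_commute, ← map_commutatorElement, hxy]
      exact (QuotientGroup.eq_one_iff _).2 (Or.inr rfl)
    have h1 : ∀ d ∈ D, ∀ d' ∈ D, Commute (QuotientGroup.mk' Z d) (QuotientGroup.mk' Z d') := by
      intro d hd d' hd'
      induction hd, hd' using Subgroup.closure_induction₂ with
      | mem d d' hd hd' =>
        rcases hd with rfl | rfl <;> rcases hd' with rfl | rfl
        exacts [Commute.refl _, h0, h0.symm, Commute.refl _]
      | one_left => simp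
      | one_right => simp
      | mul_left _ _ _ _ _ _ h h' => exact map_mul (QuotientGroup.mk' Z) _ _ ▸ h.mul_left h'
      | mul_right _ _ _ _ _ _ h h' => exact map_mul (QuotientGroup.mk' Z) _ _ ▸ h.mul_right h'
      | inv_left _ _ _ _ h => exact map_inv (QuotientGroup.mk' Z) _ ▸ h.inv_left
      | inv_right _ _ _ _ h => exact map_inv (QuotientGroup.mk' Z) _ ▸ h.inv_right
    exact h1 _ hg.2 _ hh.2
  · have hν : ν ∈ D := hxy ▸ D.mul_mem (D.mul_mem (D.mul_mem hx' hy') (D.inv_mem hx')) (D.inv_mem hy')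
    have h1 : ∀ b ∈ B, (⟨b, 1⟩ : W) ∈ ⁅Sub B D fun d hd b hb => (hD d hd b).1 hb,
        Sub B D fun d hd b hb => (hD d hd b).1 hb⁆ := by
      intro b hb
      have := Subgroup.commutator_mem_commutator
        (show (⟨5 • b, 1⟩ : W) ∈ Sub B D fun d hd b hb => (hD d hd b).1 hb from
          ⟨B.nsmul_mem hb 5, D.one_mem⟩)
        (show (⟨0, ν⟩ : W) ∈ Sub B D fun d hd b hb => (hD d hd b).1 hb from ⟨B.zero_mem, hν⟩)
      convert this using 1
      refine W.ext ?_ (by simp [commutatorElement_def])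
      simp only [commutatorElement_def, mul_a, mul_d, inv_a, inv_d, map_zero, add_zero, neg_zero,
        inv_one, one_mul, LinearEquiv.neg_apply, LinearEquiv.coe_one, id, neg_neg]
      rw [← add_nsmul, show 5 + 5 = 9 + 1 from rfl, add_nsmul, nine, zero_add, one_nsmul]
    rintro ⟨b, d⟩ ⟨hb, rfl | rfl⟩
    · exact h1 b hb
    · have := Subgroup.commutator_mem_commutator
        (show (⟨0, x⟩ : W) ∈ Sub B D fun d hd b hb => (hD d hd b).1 hb from ⟨B.zero_mem, hx'⟩)
        (show (⟨0, y⟩ : W) ∈ Sub B D fun d hd b hb => (hD d hd b).1 hb from ⟨B.zero_mem, hy'⟩)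
      convert mul_mem (h1 b hb) this using 1
      refine W.ext (by simp [commutatorElement_def]) ?_
      rw [← hxy]
      simp [commutatorElement_def]

noncomputable def X (m : ℤ) : V ≃ₗ[ℤ] V := Finsupp.domLCongr (Equiv.subLeft m)

theorem X_apply (m : ℤ) (v : V) (i : ℤ) : X m v i = v (m - i) := by
  simp [X, sub_eq_add_neg, add_comm]

noncomputable def Y₀ (m : ℤ) : V →ₗ[ℤ] V where
  toFun v := v.filter (fun i => 2 * i < m) - v.filter (fun i => ¬ 2 * i < m)
  map_add' v w := by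
    ext i
    by_cases h : 2 * i < m <;> simp [h, add_comm]
  map_smul' c v := by
    ext i
    by_cases h : 2 * i < m <;> simp [h]

theorem Y₀_apply (m : ℤ) (v : V) (i : ℤ) : Y₀ m v i = if 2 * i < m then v i else -v i := by
  by_cases h : 2 * i < m <;> simp [Y₀, Finsupp.filter_apply, h, -not_lt]

noncomputable def Y (m : ℤ) : V ≃ₗ[ℤ] V := LinearEquiv.ofInvolutive (Y₀ m) fun v => by
  ext i
  by_cases h : 2 * i < m <;> simp [Y₀_apply, h]

theorem Y_apply (m : ℤ) (v : V) (i : ℤ) : Y m v i = if 2 * i < m then v i else -v i :=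
  Y₀_apply m v i

theorem sign (φ : G ≃* G) : (∀ t : G, t ^ 3 = 1 → (φ t).1.a 0 = t.1.a 0) ∨
    (∀ t : G, t ^ 3 = 1 → (φ t).1.a 0 = -t.1.a 0) := by
  have h1 : ∀ t : G, t ^ 3 = 1 → t.1.d = 1 := by
    intro t h
    rcases t.2.2 with hd | hd
    · exact hd
    · have := congrArg (fun t : G => t.1.d) h
      simpa [pow_succ, ν_mul, hd] using this
  have h3 : ∀ t : G, t.1.d = 1 → (t ^ 3).1.a = 3 • t.1.a := fun t ht => by
    simp [pow_succ, ht, succ_nsmul]
  have h0 : ∀ (ψ : G ≃* G) (t : G), t ^ 3 = 1 → t.1.a 0 = 0 → (ψ t).1.a 0 = 0 := by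
    intro ψ t ht h
    have h4 : ∀ i, 3 * t.1.a i = 0 := fun i => by
      have := h3 t (h1 t ht)
      rw [ht] at this
      simpa using (DFunLike.congr_fun this i).symm
    let s : G := ⟨⟨t.1.a.mapRange (fun z => ((z.val / 3 : ℕ) : ZMod 9)) (by simp), 1⟩,
      by simp [A, h], Or.inl rfl⟩
    have hs : s ^ 3 = t := by
      refine Subtype.ext (W.ext ?_ (by simp [s, pow_succ, h1 t ht]))
      rw [h3 s rfl]
      ext i
      have : ∀ z : ZMod 9, 3 * z = 0 → 3 * ((z.val / 3 : ℕ) : ZMod 9) = z := by decide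
      simpa [s] using this _ (h4 i)
    rcases (ψ s).2.2 with hd | hd
    · rw [← hs, map_pow, h3 _ hd]
      simpa [A] using (ψ s).2.1
    · have h5 : ψ s * ψ s = 1 := Subtype.ext (W.ext (by simp [hd]) (by simp [hd, ν_mul]))
      have h6 : s * s = 1 := ψ.injective (by simpa using h5)
      have h7 : t * t = 1 := by rw [← hs, ← (Commute.refl s).mul_pow, h6, one_pow]
      have : t = 1 := by rw [← ht, pow_succ, sq, h7, one_mul]
      simp [this]
  let t₀ : G := ⟨⟨Finsupp.single 0 3, 1⟩, by simp [A]; rfl, Or.inl rfl⟩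
  have ht₀ : t₀ ^ 3 = 1 := by
    refine Subtype.ext (W.ext ?_ (by simp [t₀, pow_succ]))
    simp [t₀, pow_succ, ← Finsupp.single_add]
    rfl
  have hφ : ∀ t : G, t ^ 3 = 1 → φ t ^ 3 = 1 := fun t ht => by rw [← map_pow, ht, map_one]
  have hc : (φ t₀).1.a 0 ≠ 0 := fun h => by
    have := h0 φ.symm _ (hφ _ ht₀) h
    simp only [MulEquiv.symm_apply_apply, t₀, Finsupp.single_eq_same] at this
    exact absurd this (by decide)
  have hmul : ∀ s t : G, s ^ 3 = 1 → t ^ 3 = 1 → (s * t) ^ 3 = 1 := fun s t hs ht => by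
    have : Commute s t :=
      Subtype.ext (W.ext (by simp [h1 s hs, h1 t ht, add_comm]) (by simp [h1 s hs, h1 t ht]))
    rw [this.mul_pow, hs, ht, one_mul]
  have hadd : ∀ s t : G, s ^ 3 = 1 → (s * t).1.a 0 = s.1.a 0 + t.1.a 0 := fun s t hs => by
    simp [h1 s hs]
  have key : ∀ t : G, t ^ 3 = 1 → (t.1.a 0 = 0 ∧ (φ t).1.a 0 = 0) ∨
      (t.1.a 0 = 6 ∧ (φ t₀).1.a 0 + (φ t).1.a 0 = 0) ∨
      (t.1.a 0 = 3 ∧ (φ t₀).1.a 0 + ((φ t₀).1.a 0 + (φ t).1.a 0) = 0) := by
    intro t ht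
    have h4 : ∀ z : ZMod 9, 3 * z = 0 → z = 0 ∨ z = 6 ∨ z = 3 := by decide
    rcases h4 _ t.2.1 with h | h | h
    · exact Or.inl ⟨h, h0 φ t ht h⟩
    · refine Or.inr (Or.inl ⟨h, ?_⟩)
      rw [← hadd _ _ (hφ _ ht₀), ← map_mul]
      refine h0 φ _ (hmul _ _ ht₀ ht) ?_
      rw [hadd _ _ ht₀, h]
      simp [t₀]
      rfl
    · refine Or.inr (Or.inr ⟨h, ?_⟩)
      rw [← hadd _ _ (hφ _ ht₀), ← hadd _ _ (hφ _ ht₀), ← map_mul, ← map_mul]
      refine h0 φ _ (hmul _ _ ht₀ (hmul _ _ ht₀ ht)) ?_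
      rw [hadd _ _ ht₀, hadd _ _ ht₀, h]
      simp [t₀]
      rfl
  have h5 : ∀ c : ZMod 9, 3 * c = 0 → c ≠ 0 →
      (∀ z w : ZMod 9, ((z = 0 ∧ w = 0) ∨ (z = 6 ∧ c + w = 0) ∨ (z = 3 ∧ c + (c + w) = 0)) → w = z) ∨
      (∀ z w : ZMod 9, ((z = 0 ∧ w = 0) ∨ (z = 6 ∧ c + w = 0) ∨ (z = 3 ∧ c + (c + w) = 0)) →
        w = -z) := by decide
  exact (h5 _ (φ t₀).2.1 hc).imp (fun h t ht => h _ _ (key t ht)) fun h t ht => h _ _ (key t ht)

/-- A locally finite, locally integrable group without an integral. -/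
theorem result : ∃ (G : Type) (_ : Group G),
    (∀ S : Finset G, Finite (Subgroup.closure (S : Set G))) ∧
    (∀ S : Finset G, ∃ K : Subgroup G, (S : Set G) ⊆ K ∧
      ∃ (H : Type) (_ : Group H), Nonempty (commutator H ≃* K)) ∧
    ∀ (H : Type u) [Group H], IsEmpty (commutator H ≃* G) := by
  classical
  refine ⟨G, inferInstance, fun S => ?_, fun S => ?_, fun H _ => ⟨fun e => ?_⟩⟩
  · let B := AddSubgroup.closure (S.image fun g : G => g.1.a : Set V)
    have hB : Finite B := AddCommGroup.finite_of_fg_isAddTorsion _ fun b =>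
      isOfFinAddOrder_iff_nsmul_eq_zero.2 ⟨9, by norm_num, Subtype.ext (nine b.1)⟩
    have hZf : Finite Z := Set.Finite.to_subtype ((Set.finite_singleton ν).insert 1)
    have h : Subgroup.closure (S : Set G) ≤ (Sub B Z (hZ _)).subgroupOf G :=
      (Subgroup.closure_le _).2 fun g hg => ⟨AddSubgroup.subset_closure
        (Finset.mem_coe.2 (Finset.mem_image_of_mem _ hg)), g.2.2⟩
    refine Finite.of_injective
      (fun g => ((⟨g.1.1.a, (h g.2).1⟩, ⟨g.1.1.d, (h g.2).2⟩) : B × Z)) fun g g' e => ?_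
    simp only [Prod.mk.injEq, Subtype.mk.injEq] at e
    exact Subtype.ext (Subtype.ext (W.ext e.1 e.2))
  · obtain ⟨k, hk⟩ := Infinite.exists_notMem_finset
      ((S.biUnion fun g => g.1.a.support).image fun i => i / 2)
    obtain ⟨H, hH⟩ := integrable (A 0 ⊓ A (2 * k + 1)) (X (2 * k + 1)) (Y (2 * k + 1))
      (fun b => by simp [A, X_apply, and_comm]) (fun b => by
        simp only [A, AddSubgroup.mem_inf, AddSubgroup.mem_mk, AddSubmonoid.mem_mk,
          AddSubsemigroup.mem_mk, Set.mem_ofPred_eq, Y_apply]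
        split_ifs <;> simp) (by
        rw [commutatorElement_def, mul_inv_eq_iff_eq_mul, mul_inv_eq_iff_eq_mul]
        refine LinearEquiv.ext fun v => Finsupp.ext fun i => ?_
        simp only [LinearEquiv.mul_apply, LinearEquiv.neg_apply, Finsupp.neg_apply, X_apply, Y_apply]
        split_ifs <;> first | omega | simp)
    refine ⟨(Sub (A 0 ⊓ A (2 * k + 1)) Z (hZ _)).subgroupOf G, fun g hg => ⟨⟨g.2.1, ?_⟩, g.2.2⟩,
      H, inferInstance, ⟨?_⟩⟩
    · have : g.1.a (2 * k + 1) = 0 := by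
        by_contra h
        refine hk (Finset.mem_image.2 ⟨2 * k + 1, Finset.mem_biUnion.2
          ⟨g, hg, Finsupp.mem_support_iff.2 h⟩, by omega⟩)
      change 3 * g.1.a (2 * k + 1) = 0
      rw [this, mul_zero]
    · refine ((commutator H).equivMapOfInjective H.subtype H.subtype_injective).trans
        ((MulEquiv.subgroupCongr ?_).trans (Subgroup.subgroupOfEquivOfLe
          (show Sub (A 0 ⊓ A (2 * k + 1)) Z (hZ _) ≤ G from fun g hg => ⟨hg.1.1, hg.2⟩)).symm)
      rw [Subgroup.map_subtype_commutator, hH]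
  · let ρ : H → G ≃* G := fun h => (e.symm.trans (MulAut.conjNormal h)).trans e
    let t₀ : G := ⟨⟨Finsupp.single 0 3, 1⟩, by simp [A]; rfl, Or.inl rfl⟩
    have ht₀ : t₀ ^ 3 = 1 := by
      refine Subtype.ext (W.ext ?_ (by simp [t₀, pow_succ]))
      simp [t₀, pow_succ, ← Finsupp.single_add]
      rfl
    have hρ : ∀ h h' t, ρ (h * h') t = ρ h (ρ h' t) := fun h h' t => by simp [ρ]
    have h3 : ∀ h, ρ h t₀ ^ 3 = 1 := fun h => by rw [← map_pow, ht₀, map_one]
    have ha : t₀.1.a 0 = 3 := by simp [t₀]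
    let χ : H →* ℤˣ := MonoidHom.mk' (fun h => if (ρ h t₀).1.a 0 = 3 then 1 else -1) (by
      intro h h'
      rw [hρ]
      rcases sign (ρ h) with h1 | h1 <;> rcases sign (ρ h') with h2 | h2 <;>
        rw [h1 _ (h3 h'), h1 _ ht₀, h2 _ ht₀, ha] <;> decide)
    let n : G := ⟨⟨0, ν⟩, (A 0).zero_mem, Or.inr rfl⟩
    have h1 : χ (e.symm n) = 1 := Abelianization.commutator_subset_ker χ (e.symm n).2
    have h2 : ρ (e.symm n) t₀ = n * t₀ * n⁻¹ := by
      simp only [ρ, MulEquiv.trans_apply, MulAut.conjNormal_val, MulAut.conj_apply, map_mul, map_inv,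
        MulEquiv.apply_symm_apply]
    have h4 : (ρ (e.symm n) t₀).1.a 0 = -3 := by simp [h2, n, t₀]
    change (if (ρ (e.symm n) t₀).1.a 0 = 3 then 1 else -1 : ℤˣ) = 1 at h1
    rw [h4] at h1
    exact absurd h1 (by decide)

end Pool.Agent.Results.MP_2bd3fb_al.NotIntegrable
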